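import Pool.Agent.H27.ZF.TA

/-!
Board zf (MP_52e316_nt), row NZR: no zeros, from the product of the inverses of the local factors and
Hadamard's three circles.
-/

set_option autoImplicit false

namespace Pool.Agent.H14.ZF

open Pool.Agent.H27.ZF

lemma sq_mono {lam : ℕ → ℂ} {Q A A' : ℝ} (h : Sq lam Q A) (hA : A ≤ A') : Sq lam Q A' := by
  intro r hr
  exact (h r hr).trans (by gcongr)

lemma dp_mono {m : ℕ} {lam : ℕ → ℂ} {Q z0 z A A' : ℝ} {s : ℂ} (h : Dp m lam Q z0 z A s)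
    (hA : A ≤ A') : Dp m lam Q z0 z A' s := by
  intro j k r hj hk hkm hjQ hrQ
  exact (h j k r hj hk hkm hjQ hrQ).trans (by gcongr)

lemma summ_of_growth {m : ℕ} {C0 : ℝ} {lam : ℕ → ℂ}
    (h : ∀ n : ℕ, 1 ≤ n → ‖lam n‖ ≤ C0 * (n : ℝ) ^ m) {x : ℝ} (hx : (m : ℝ) + 4 ≤ x) :
    Summable (fun n : ℕ => if 1 ≤ n then ‖lam n‖ * (n : ℝ) ^ (-x) else 0) := by
  have h1 : Summable (fun n : ℕ => C0 * (n : ℝ) ^ (-4 : ℝ)) :=
    (Real.summable_nat_rpow.2 (by norm_num)).mul_left C0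
  refine Summable.of_nonneg_of_le (fun n => ?_) (fun n => ?_) h1
  · split_ifs <;> positivity
  · split_ifs with hn
    · have hn1 : (1 : ℝ) ≤ n := by exact_mod_cast hn
      have hn0 : (0 : ℝ) < n := by linarith
      have hC0 : 0 ≤ C0 := by
        have h2 := (norm_nonneg _).trans (h 1 le_rfl)
        simpa using h2
      calc ‖lam n‖ * (n : ℝ) ^ (-x) ≤ C0 * (n : ℝ) ^ m * (n : ℝ) ^ (-x) := by
            gcongr
            exact h n hn
        _ = C0 * (n : ℝ) ^ ((m : ℝ) + (-x)) := by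
            rw [Real.rpow_add hn0, Real.rpow_natCast, mul_assoc]
        _ ≤ C0 * (n : ℝ) ^ (-4 : ℝ) := by
            gcongr
            linarith
    · have h2 := (norm_nonneg _).trans (h 1 le_rfl)
      have hC0 : 0 ≤ C0 := by simpa using h2
      positivity

lemma qv_diff (m : ℕ) (q : ℕ → ℂ) (p : ℕ) (hp : p ≠ 0) :
    Differentiable ℂ (fun s : ℂ => qv m q ((p : ℂ) ^ (-s))) := by
  have hp1 : (p : ℂ) ≠ 0 := by exact_mod_cast hp
  unfold qv
  intro s
  have h1 : DifferentiableAt ℂ (fun s : ℂ => (p : ℂ) ^ (-s)) s :=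
    (differentiableAt_id.neg).const_cpow (Or.inl hp1)
  fun_prop

/-- the product of the inverses of the local factors at the primes up to `z`, times `L` -/
noncomputable def RR (m : ℕ) (q : ℕ → ℕ → ℂ) (z : ℕ) (L : ℂ → ℂ) (s : ℂ) : ℂ :=
  (∏ p ∈ (Finset.range (z + 1)).filter Nat.Prime, qv m (q p) ((p : ℂ) ^ (-s))) * L s

lemma rr_diff (m : ℕ) (q : ℕ → ℕ → ℂ) (z : ℕ) (L : ℂ → ℂ) (hL : Differentiable ℂ L) :
    Differentiable ℂ (RR m q z L) := by
  unfold RR
  refine Differentiable.mul ?_ hL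
  refine Differentiable.fun_finsetProd fun p hp => ?_
  exact qv_diff m (q p) p (Finset.mem_filter.1 hp).2.ne_zero

/-- far to the right -/
lemma rr_right (hEPR : T_EPR) {m : ℕ} {C0 C1 : ℝ} {lam : ℕ → ℂ} {q : ℕ → ℕ → ℂ} {L : ℂ → ℂ}
    (hT : ∀ lam : ℕ → ℂ, lam 1 = 1 →
      (∀ n : ℕ, 1 ≤ n → ‖lam n‖ ≤ C0 * (n : ℝ) ^ m) → ∀ z : ℕ, 1 ≤ z → ∀ s : ℂ, (m : ℝ) + 4 ≤ s.re →
      ‖(∑' n : ℕ, if 1 ≤ n ∧ ∀ p ∈ (Finset.range (z + 1)).filter Nat.Prime, ¬ p ∣ n then
        lam n * (n : ℂ) ^ (-s) else 0) - 1‖ ≤ C1 / z)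
    (he : Eul m lam q) (hg : ∀ n : ℕ, 1 ≤ n → ‖lam n‖ ≤ C0 * (n : ℝ) ^ m)
    (hs : ∀ s : ℂ, (m : ℝ) + 2 < s.re →
      HasSum (fun n : ℕ => if 1 ≤ n then lam n * (n : ℂ) ^ (-s) else 0) (L s))
    {z : ℕ} (hz : 1 ≤ z) {s : ℂ} (h4 : (m : ℝ) + 4 ≤ s.re) : ‖RR m q z L s - 1‖ ≤ C1 / z := by
  have h1 := hT lam he.one hg z hz s h4
  have h2 := hEPR m lam q s ((Finset.range (z + 1)).filter Nat.Prime) he
    (fun p hp => (Finset.mem_filter.1 hp).2) (summ_of_growth hg h4)
  unfold RR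
  rw [← (hs s (by linarith)).tsum_eq, h2]
  exact h1

theorem pf_NZR (hPRD : T_PRD) (hHTC : T_HTC) (hEPR : T_EPR) (hTAI : T_TAI) : T_NZR := by
  intro m d C0 hm hd hd2 hC0
  have hm1 : (1 : ℝ) ≤ m := by exact_mod_cast hm
  have hm0 : (0 : ℝ) < m := by linarith
  obtain ⟨C1, hC1, hT⟩ := hTAI m C0 hC0
  obtain ⟨w, hw0, hw1, hcirc⟩ := hHTC 1 ((m : ℝ) + 9 / 2 - d) ((m : ℝ) + 9 / 2 - d / 2) one_pos
    (by linarith) (by linarith)
  obtain ⟨c', hc', hprd⟩ := hPRD m (d / 2) C0 hm (by linarith) (by linarith) hC0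
  have hη : 0 < w / (16 * m) := by positivity
  obtain ⟨k0, QP, hk0, hQP, hprd⟩ := hprd (w / (16 * m)) hη
  obtain ⟨c, hc⟩ : ∃ c : ℝ, c = min c' (w / (16 * m)) := ⟨_, rfl⟩
  have hc0 : 0 < c := by
    rw [hc]
    exact lt_min hc' hη
  have hcc' : c ≤ c' := by
    rw [hc]
    exact min_le_left _ _
  have hcη : c ≤ w / (16 * m) := by
    rw [hc]
    exact min_le_right _ _
  refine ⟨c, k0, 2 * m + 10, max QP ((4 * C1 + 1) ^ (8 * (m : ℝ) / w)), hc0, hk0, by linarith,
    le_max_of_le_left hQP, ?_⟩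
  intro lam q L Q t hQ he hg hL hs hSq hrect s hs1 hs2 hzero
  have hQP' : QP ≤ Q := (le_max_left _ _).trans hQ
  have hQ1 : 1 ≤ Q := hQP.trans hQP'
  have hQ0 : 0 < Q := by linarith
  -- the size of `Q`
  have hG : 4 * C1 + 1 ≤ Q ^ (w / (8 * m)) := by
    have h1 : (4 * C1 + 1) ^ (8 * (m : ℝ) / w) ≤ Q := (le_max_right _ _).trans hQ
    have h2 : ((4 * C1 + 1) ^ (8 * (m : ℝ) / w)) ^ (w / (8 * m)) ≤ Q ^ (w / (8 * m)) :=
      Real.rpow_le_rpow (by positivity) h1 (by positivity)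
    rw [← Real.rpow_mul (by positivity)] at h2
    have h3 : 8 * (m : ℝ) / w * (w / (8 * m)) = 1 := by field_simp
    rwa [h3, Real.rpow_one] at h2
  obtain ⟨z, hz⟩ : ∃ z : ℝ, z = Q ^ (1 / (4 * (m : ℝ))) := ⟨_, rfl⟩
  have hGz : Q ^ (w / (8 * m)) ≤ z := by
    rw [hz]
    apply Real.rpow_le_rpow_of_exponent_le hQ1
    rw [div_le_div_iff₀ (by positivity) (by positivity)]
    nlinarith
  have hz1 : 4 * C1 + 1 ≤ z := hG.trans hGz
  have hz0 : 0 < z := by linarith
  have hfl : z / 2 ≤ (⌊z⌋₊ : ℝ) := by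
    have := Nat.lt_floor_add_one z
    linarith
  have hfl1 : 1 ≤ ⌊z⌋₊ := Nat.le_floor (by
    rw [Nat.cast_one]
    linarith)
  have hzm : z ^ (4 * m) ≤ Q := by
    rw [hz, ← Real.rpow_natCast, ← Real.rpow_mul hQ0.le]
    have : 1 / (4 * (m : ℝ)) * ((4 * m : ℕ) : ℝ) = 1 := by
      push_cast
      field_simp
    rw [this, Real.rpow_one]
  -- far to the right
  have hright : ∀ s : ℂ, (m : ℝ) + 4 ≤ s.re → ‖RR m q ⌊z⌋₊ L s - 1‖ ≤ 2 * C1 / z := by
    intro s h4
    refine (rr_right hEPR hT he hg hs hfl1 h4).trans ?_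
    rw [div_le_div_iff₀ (by positivity) hz0]
    nlinarith
  -- the big disc
  have hbig : ∀ s : ℂ, 1 / 2 + d / 2 ≤ s.re → s.re ≤ 2 * m + 10 → |s.im - t| ≤ 2 * m + 10 →
      ‖RR m q ⌊z⌋₊ L s - 1‖ ≤ 2 * Q ^ (w / (8 * m)) := by
    intro s h1 h2 h3
    obtain ⟨h4, h5⟩ := hrect s h1 h2 h3
    rw [← hz] at h5
    have h6 := hprd lam q Q hQP' he hg (sq_mono hSq (by
      apply Real.rpow_le_rpow_of_exponent_le hQ1
      linarith)) z hzm s h1 (dp_mono h5 (Real.rpow_le_rpow_of_exponent_le hQ1 hcc'))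
    have h7 : ‖RR m q ⌊z⌋₊ L s‖ ≤ Q ^ (w / (8 * m)) := by
      unfold RR
      rw [norm_mul]
      calc _ ≤ Q ^ (w / (16 * m)) * Q ^ c := by gcongr
        _ = Q ^ (w / (16 * m) + c) := (Real.rpow_add hQ0 _ _).symm
        _ ≤ Q ^ (w / (8 * m)) := by
            apply Real.rpow_le_rpow_of_exponent_le hQ1
            have : w / (8 * (m : ℝ)) = w / (16 * m) + w / (16 * m) := by
              field_simp
              ring
            linarith
    have h8 : (1 : ℝ) ≤ Q ^ (w / (8 * m)) := by linarith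
    calc ‖RR m q ⌊z⌋₊ L s - 1‖ ≤ ‖RR m q ⌊z⌋₊ L s‖ + ‖(1 : ℂ)‖ := norm_sub_le _ _
      _ ≤ 2 * Q ^ (w / (8 * m)) := by
          rw [norm_one]
          linarith
  have hlt : ‖RR m q ⌊z⌋₊ L s - 1‖ < 1 := by
    rcases le_or_gt s.re ((m : ℝ) + 5) with h5 | h5
    · have hM1 : 0 < 2 * C1 / z := by positivity
      have h13 : 2 * C1 / z ≤ 2 * Q ^ (w / (8 * m)) := by
        have h1 : 2 * C1 / z ≤ 1 := by
          rw [div_le_one hz0]
          linarith
        linarith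
      have h6 := hcirc (fun s => RR m q ⌊z⌋₊ L s - 1) (((m : ℝ) + 5 : ℝ) + t * Complex.I)
        (2 * C1 / z) (2 * Q ^ (w / (8 * m))) ((rr_diff m q _ L hL).sub_const 1) hM1 h13 (by
          intro s h
          apply hright
          have h1 := (Complex.abs_re_le_norm (s - ((((m : ℝ) + 5 : ℝ) : ℂ) + t * Complex.I))).trans h
          simp only [Complex.sub_re, Complex.add_re, Complex.ofReal_re, Complex.mul_re,
            Complex.I_re, Complex.I_im, Complex.ofReal_im, mul_zero, mul_one, sub_zero,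
            add_zero, zero_mul] at h1
          have := (abs_le.1 h1).1
          linarith) (by
          intro s h
          have h1 := (Complex.abs_re_le_norm (s - ((((m : ℝ) + 5 : ℝ) : ℂ) + t * Complex.I))).trans h
          have h2 := (Complex.abs_im_le_norm (s - ((((m : ℝ) + 5 : ℝ) : ℂ) + t * Complex.I))).trans h
          simp only [Complex.sub_re, Complex.add_re, Complex.ofReal_re, Complex.mul_re,
            Complex.I_re, Complex.I_im, Complex.ofReal_im, mul_zero, mul_one, sub_zero,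
            add_zero, zero_mul] at h1
          simp only [Complex.sub_im, Complex.add_im, Complex.ofReal_re, Complex.mul_im,
            Complex.I_re, Complex.I_im, Complex.ofReal_im, mul_zero, mul_one,
            add_zero, zero_add] at h2
          have h3 := abs_le.1 h1
          apply hbig
          · linarith
          · linarith
          · linarith) s (by
          have h7 : s - ((((m : ℝ) + 5 : ℝ) : ℂ) + t * Complex.I) = ((s.re - ((m : ℝ) + 5) : ℝ) : ℂ) := by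
            apply Complex.ext
            · simp
            · simp [hs2]
          rw [h7, Complex.norm_real, Real.norm_eq_abs, abs_le]
          constructor <;> linarith)
      refine lt_of_le_of_lt h6 ?_
      have hGz2 : (2 * C1 / z) ^ w ≤ 2 * C1 * Q ^ (-(w / (4 * m))) := by
        rw [Real.div_rpow (by positivity) hz0.le, hz, ← Real.rpow_mul hQ0.le]
        have e1 : 1 / (4 * (m : ℝ)) * w = w / (4 * m) := by ring
        rw [e1, Real.rpow_neg hQ0.le, div_eq_mul_inv]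
        gcongr
        calc (2 * C1) ^ w ≤ (2 * C1) ^ (1 : ℝ) :=
              Real.rpow_le_rpow_of_exponent_le (by linarith) hw1.le
          _ = 2 * C1 := Real.rpow_one _
      have hG3 : (2 * Q ^ (w / (8 * m))) ^ (1 - w) ≤ 2 * Q ^ (w / (8 * m)) := by
        calc (2 * Q ^ (w / (8 * m))) ^ (1 - w) ≤ (2 * Q ^ (w / (8 * m))) ^ (1 : ℝ) := by
              apply Real.rpow_le_rpow_of_exponent_le
              · linarith
              · linarith
          _ = _ := Real.rpow_one _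
      calc (2 * C1 / z) ^ w * (2 * Q ^ (w / (8 * m))) ^ (1 - w) ≤
          2 * C1 * Q ^ (-(w / (4 * m))) * (2 * Q ^ (w / (8 * m))) := by gcongr
        _ = 4 * C1 * Q ^ (-(w / (8 * m))) := by
            have e2 : -(w / (8 * (m : ℝ))) = -(w / (4 * m)) + w / (8 * m) := by
              field_simp
              ring
            rw [e2, Real.rpow_add hQ0]
            ring
        _ < 1 := by
            rw [Real.rpow_neg hQ0.le, ← div_eq_mul_inv, div_lt_one (by positivity)]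
            linarith
    · refine lt_of_le_of_lt (hright s (by linarith)) ?_
      rw [div_lt_one hz0]
      linarith
  have : RR m q ⌊z⌋₊ L s = 0 := by
    unfold RR
    rw [hzero, mul_zero]
  rw [this, zero_sub, norm_neg, norm_one] at hlt
  exact lt_irrefl _ hlt

end Pool.Agent.H14.ZF
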