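import Pool.Agent.H27.ZF.TC
import Pool.Agent.H27.L1.H68.GHK.UNW

/-!
Board zf (MP_52e316_nt), row UNI: the universal family, from power savings at every level.
-/

set_option autoImplicit false

namespace Pool.Agent.H14.ZF

open Pool.Agent.H27.ZF

/-- the bound at one level with an additional factor -/
lemma lev_bound {m : ℕ} (hm : 1 ≤ m) {c c0 e1 C1 N Q : ℝ} (hc0 : c0 ≤ c) (he1 : 0 ≤ e1)
    (hC1 : 0 ≤ C1) (hN : 1 ≤ N) (hQ : 1 ≤ Q) (h0 : 0 ≤ c0) :
    (N * Q) ^ c0 * (C1 * (N * Q ^ m) ^ ((m : ℝ) - c)) ≤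
      C1 * (N * Q) ^ e1 * (N ^ m * Q ^ (m ^ 2)) := by
  have hN0 : 0 < N := by linarith
  have hQ0 : 0 < Q := by linarith
  have hQm : Q ≤ Q ^ m := le_self_pow₀ hQ (by omega)
  have hNQ : 1 ≤ N * Q := by nlinarith
  have hNQm : N * Q ≤ N * Q ^ m := by gcongr
  have hNQm1 : 1 ≤ N * Q ^ m := hNQ.trans hNQm
  have h1 : (N * Q ^ m) ^ ((m : ℝ) - c) ≤ (N * Q ^ m) ^ ((m : ℝ) - c0) :=
    Real.rpow_le_rpow_of_exponent_le hNQm1 (by linarith)
  have h2 : (N * Q ^ m) ^ ((m : ℝ) - c0) = (N ^ m * Q ^ (m ^ 2)) / (N * Q ^ m) ^ c0 := by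
    rw [Real.rpow_sub (by positivity), Real.rpow_natCast, mul_pow, ← pow_mul, ← sq]
  have h3 : (N * Q) ^ c0 ≤ (N * Q ^ m) ^ c0 := Real.rpow_le_rpow (by positivity) hNQm h0
  have h4 : (1 : ℝ) ≤ (N * Q) ^ e1 := Real.one_le_rpow hNQ he1
  calc (N * Q) ^ c0 * (C1 * (N * Q ^ m) ^ ((m : ℝ) - c)) ≤
      (N * Q ^ m) ^ c0 * (C1 * ((N ^ m * Q ^ (m ^ 2)) / (N * Q ^ m) ^ c0)) := by
        rw [← h2]
        gcongr
    _ = C1 * 1 * (N ^ m * Q ^ (m ^ 2)) := by
        have : (N * Q ^ m) ^ c0 ≠ 0 := by positivity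
        field_simp
    _ ≤ _ := by gcongr

theorem pf_UNI : T_UNI := by
  intro m c hm hc
  have hm1 : (1 : ℝ) ≤ m := by exact_mod_cast hm
  have hm0 : (0 : ℝ) < m := by linarith
  obtain ⟨c0, hc0⟩ : ∃ c0 : ℝ, c0 = min c 1 := ⟨_, rfl⟩
  have hc00 : 0 < c0 := by
    rw [hc0]
    exact lt_min hc one_pos
  have hc0c : c0 ≤ c := by
    rw [hc0]
    exact min_le_left _ _
  have hc01 : c0 ≤ 1 := by
    rw [hc0]
    exact min_le_right _ _
  obtain ⟨δ, hδ⟩ : ∃ δ : ℝ, δ = ((m : ℝ) + 1) / (2 * ((m : ℝ) ^ 2 + m + 1)) := ⟨_, rfl⟩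
  have hδ0 : 0 < δ := by
    rw [hδ]
    positivity
  have hδ2 : δ ≤ 1 / 2 := by
    rw [hδ, div_le_div_iff₀ (by positivity) (by norm_num)]
    nlinarith
  obtain ⟨e, he⟩ : ∃ e : ℝ, e = c0 * δ / 2 := ⟨_, rfl⟩
  have he0 : 0 < e := by
    rw [he]
    positivity
  have he4 : e ≤ 1 / 4 := by
    rw [he]
    nlinarith
  obtain ⟨e1, CU, he1, hCU, hU⟩ := Pool.Agent.H27.L1.H68.GHK.universal_sum_w m hm e he0
  refine ⟨e, 2 * CU, he0, by positivity, ?_⟩
  intro C1 hC1 S _ P w v hP hS X hX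
  have hX0 : 0 < X := by linarith
  obtain ⟨Y, hY⟩ : ∃ Y : ℝ, Y = X ^ (1 / 2 : ℝ) := ⟨_, rfl⟩
  have hY1 : 1 ≤ Y := by
    rw [hY]
    exact Real.one_le_rpow hX (by norm_num)
  have hY0 : 0 < Y := by linarith
  have hYX : Y ≤ X := by
    rw [hY]
    calc X ^ (1 / 2 : ℝ) ≤ X ^ (1 : ℝ) := Real.rpow_le_rpow_of_exponent_le hX (by norm_num)
      _ = X := Real.rpow_one X
  -- the two applications
  have hA := hU C1 hC1 1 le_rfl S P w v hP (by
    intro N hN Q hQ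
    have hN1 : (1 : ℝ) ≤ N := by exact_mod_cast hN
    refine (hS N hN Q hQ).trans ?_
    have h := lev_bound (c := c) (c0 := 0) (e1 := e1) hm hc.le he1.le hC1 hN1 hQ le_rfl
    rwa [Real.rpow_zero, one_mul] at h) Y hY1
  have hB := hU C1 hC1 1 le_rfl S P w (fun N i => ((N : ℝ) * P N i) ^ c0 * v N i) (by
    intro N hN i
    obtain ⟨h1, h2, h3, h4⟩ := hP N hN i
    exact ⟨h1, h2, h3, by positivity⟩) (by
    intro N hN Q hQ
    have hN1 : (1 : ℝ) ≤ N := by exact_mod_cast hN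
    have h := lev_bound (c := c) (c0 := c0) (e1 := e1) hm hc0c he1.le hC1 hN1 hQ hc00.le
    refine le_trans ?_ h
    refine le_trans ?_ (mul_le_mul_of_nonneg_left (hS N hN Q hQ) (by positivity))
    rw [Finset.mul_sum]
    apply Finset.sum_le_sum
    intro i hi
    obtain ⟨h1, h2, h3, h4⟩ := hP N hN i
    have h5 : P N i ≤ Q := (Finset.mem_filter.1 hi).2
    have h6 : ((N : ℝ) * P N i) ^ c0 ≤ ((N : ℝ) * Q) ^ c0 := by
      apply Real.rpow_le_rpow (by positivity) _ hc00.le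
      gcongr
    calc w N i * (((N : ℝ) * P N i) ^ c0 * v N i) = ((N : ℝ) * P N i) ^ c0 * (w N i * v N i) := by
          ring
      _ ≤ _ := by gcongr) X hX
  -- a level above `Y` has no form of order at most `Y`
  have hlev : ∀ N : ℕ, 1 ≤ N → ∀ i, (N : ℝ) ^ (m + 1) * P N i ^ (m ^ 2) ≤ w N i * Y ^ (m + 1) →
      (N : ℝ) ≤ Y := by
    intro N hN i h
    obtain ⟨h1, h2, h3, h4⟩ := hP N hN i
    have hexp : m * (m - 1) / 2 ≤ m ^ 2 := by
      calc m * (m - 1) / 2 ≤ m * (m - 1) := Nat.div_le_self _ _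
        _ ≤ m * m := Nat.mul_le_mul_left m (Nat.sub_le m 1)
        _ = m ^ 2 := (sq m).symm
    have h5 : w N i ≤ P N i ^ (m ^ 2) := h3.trans (pow_le_pow_right₀ h1 hexp)
    have h6 : (N : ℝ) ^ (m + 1) * P N i ^ (m ^ 2) ≤ Y ^ (m + 1) * P N i ^ (m ^ 2) := by
      refine h.trans ?_
      rw [mul_comm]
      gcongr
    have h7 : (N : ℝ) ^ (m + 1) ≤ Y ^ (m + 1) := le_of_mul_le_mul_right h6 (by positivity)
    exact le_of_pow_le_pow_left₀ (by omega) hY0.le h7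
  -- the large products
  have hbig : ∀ N : ℕ, 1 ≤ N → ∀ i, ¬ ((N : ℝ) ^ (m + 1) * P N i ^ (m ^ 2) ≤ w N i * Y ^ (m + 1)) →
      X ^ (c0 * δ) ≤ ((N : ℝ) * P N i) ^ c0 := by
    intro N hN i h
    obtain ⟨h1, h2, h3, h4⟩ := hP N hN i
    have hN1 : (1 : ℝ) ≤ N := by exact_mod_cast hN
    rw [not_le] at h
    have h5 : X ^ (((m : ℝ) + 1) / 2) ≤ ((N : ℝ) * P N i) ^ (m ^ 2 + m + 1) := by
      calc X ^ (((m : ℝ) + 1) / 2) = Y ^ (m + 1) := by
            rw [hY, ← Real.rpow_natCast, ← Real.rpow_mul hX0.le]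
            congr 1
            push_cast
            ring
        _ ≤ w N i * Y ^ (m + 1) := le_mul_of_one_le_left (by positivity) h2
        _ ≤ (N : ℝ) ^ (m + 1) * P N i ^ (m ^ 2) := h.le
        _ ≤ (N : ℝ) ^ (m ^ 2 + m + 1) * P N i ^ (m ^ 2 + m + 1) := by
            refine mul_le_mul (pow_le_pow_right₀ hN1 ?_) (pow_le_pow_right₀ h1 ?_)
              (by positivity) (by positivity)
            · have := Nat.zero_le (m ^ 2)
              linarith
            · linarith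
        _ = _ := (mul_pow _ _ _).symm
    have h6 : X ^ δ ≤ (N : ℝ) * P N i := by
      have hk : (0 : ℝ) < (m : ℝ) ^ 2 + m + 1 := by positivity
      have h7 := Real.rpow_le_rpow (by positivity) h5 (z := 1 / ((m : ℝ) ^ 2 + m + 1))
        (by positivity)
      rw [← Real.rpow_mul hX0.le, ← Real.rpow_natCast ((N : ℝ) * P N i) (m ^ 2 + m + 1),
        ← Real.rpow_mul (by positivity)] at h7
      have e2 : ((m : ℝ) + 1) / 2 * (1 / ((m : ℝ) ^ 2 + m + 1)) = δ := by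
        rw [hδ]
        field_simp
      have e3 : ((m ^ 2 + m + 1 : ℕ) : ℝ) * (1 / ((m : ℝ) ^ 2 + m + 1)) = 1 := by
        push_cast
        field_simp
      rwa [e2, e3, Real.rpow_one] at h7
    calc X ^ (c0 * δ) = (X ^ δ) ^ c0 := by
          rw [← Real.rpow_mul hX0.le]
          congr 1
          ring
      _ ≤ _ := Real.rpow_le_rpow (by positivity) h6 hc00.le
  -- the sum over the forms of order at most `Y`
  have hA2 : ∑ N ∈ Finset.Icc 1 ⌊X⌋₊, ∑ i ∈ Finset.univ.filter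
      (fun i : S N => (N : ℝ) ^ (m + 1) * P N i ^ (m ^ 2) ≤ w N i * Y ^ (m + 1)), v N i ≤
      CU * C1 * Y ^ ((m : ℝ) + 1 + e) := by
    refine le_trans (le_of_eq ?_) hA
    symm
    apply Finset.sum_subset
    · apply Finset.Icc_subset_Icc_right
      exact Nat.floor_le_floor hYX
    · intro N hN1 hN2
      apply Finset.sum_eq_zero
      intro i hi
      exfalso
      apply hN2
      rw [Finset.mem_Icc] at hN1 ⊢
      exact ⟨hN1.1, Nat.le_floor (hlev N hN1.1 i (Finset.mem_filter.1 hi).2)⟩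
  have hYp : Y ^ ((m : ℝ) + 1 + e) ≤ X ^ ((m : ℝ) + 1 - e) := by
    rw [hY, ← Real.rpow_mul hX0.le]
    apply Real.rpow_le_rpow_of_exponent_le hX
    linarith
  have hXe : X ^ (-(c0 * δ)) * X ^ ((m : ℝ) + 1 + e) = X ^ ((m : ℝ) + 1 - e) := by
    rw [← Real.rpow_add hX0]
    congr 1
    rw [he]
    ring
  calc ∑ N ∈ Finset.Icc 1 ⌊X⌋₊, ∑ i ∈ Finset.univ.filter
          (fun i : S N => (N : ℝ) ^ (m + 1) * P N i ^ (m ^ 2) ≤ w N i * X ^ (m + 1)), v N i ≤
        ∑ N ∈ Finset.Icc 1 ⌊X⌋₊, (∑ i ∈ Finset.univ.filter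
          (fun i : S N => (N : ℝ) ^ (m + 1) * P N i ^ (m ^ 2) ≤ w N i * Y ^ (m + 1)), v N i +
          X ^ (-(c0 * δ)) * ∑ i ∈ Finset.univ.filter
            (fun i : S N => (N : ℝ) ^ (m + 1) * P N i ^ (m ^ 2) ≤ w N i * X ^ (m + 1)),
              ((N : ℝ) * P N i) ^ c0 * v N i) := by
        apply Finset.sum_le_sum
        intro N hN
        have hN1 : 1 ≤ N := (Finset.mem_Icc.1 hN).1
        rw [Finset.mul_sum, ← Finset.sum_filter_add_sum_filter_not (Finset.univ.filter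
          (fun i : S N => (N : ℝ) ^ (m + 1) * P N i ^ (m ^ 2) ≤ w N i * X ^ (m + 1)))
          (fun i : S N => (N : ℝ) ^ (m + 1) * P N i ^ (m ^ 2) ≤ w N i * Y ^ (m + 1)) (v N)]
        refine add_le_add ?_ ?_
        · refine Finset.sum_le_sum_of_subset_of_nonneg ?_ (fun i _ _ => (hP N hN1 i).2.2.2)
          intro i hi
          rw [Finset.mem_filter] at hi ⊢
          exact ⟨Finset.mem_univ i, hi.2⟩
        · calc _ ≤ ∑ i ∈ (Finset.univ.filter
                (fun i : S N => (N : ℝ) ^ (m + 1) * P N i ^ (m ^ 2) ≤ w N i * X ^ (m + 1))).filter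
                (fun i : S N => ¬ (N : ℝ) ^ (m + 1) * P N i ^ (m ^ 2) ≤ w N i * Y ^ (m + 1)),
                X ^ (-(c0 * δ)) * (((N : ℝ) * P N i) ^ c0 * v N i) := by
                apply Finset.sum_le_sum
                intro i hi
                have h1 := hbig N hN1 i (Finset.mem_filter.1 hi).2
                have hv := (hP N hN1 i).2.2.2
                have h2 : 1 ≤ X ^ (-(c0 * δ)) * ((N : ℝ) * P N i) ^ c0 := by
                  rw [Real.rpow_neg hX0.le, ← div_eq_inv_mul, one_le_div (by positivity)]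
                  exact h1
                calc v N i = 1 * v N i := (one_mul _).symm
                  _ ≤ X ^ (-(c0 * δ)) * ((N : ℝ) * P N i) ^ c0 * v N i := by gcongr
                  _ = _ := by ring
            _ ≤ _ := by
                refine Finset.sum_le_sum_of_subset_of_nonneg (Finset.filter_subset _ _) ?_
                intro i _ _
                obtain ⟨h1, h2, h3, h4⟩ := hP N hN1 i
                positivity
    _ = ∑ N ∈ Finset.Icc 1 ⌊X⌋₊, ∑ i ∈ Finset.univ.filter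
        (fun i : S N => (N : ℝ) ^ (m + 1) * P N i ^ (m ^ 2) ≤ w N i * Y ^ (m + 1)), v N i +
        X ^ (-(c0 * δ)) * ∑ N ∈ Finset.Icc 1 ⌊X⌋₊, ∑ i ∈ Finset.univ.filter
          (fun i : S N => (N : ℝ) ^ (m + 1) * P N i ^ (m ^ 2) ≤ w N i * X ^ (m + 1)),
            ((N : ℝ) * P N i) ^ c0 * v N i := by
        rw [Finset.sum_add_distrib, ← Finset.mul_sum]
    _ ≤ CU * C1 * Y ^ ((m : ℝ) + 1 + e) +
        X ^ (-(c0 * δ)) * (CU * C1 * X ^ ((m : ℝ) + 1 + e)) := by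
        gcongr
    _ ≤ CU * C1 * X ^ ((m : ℝ) + 1 - e) + CU * C1 * X ^ ((m : ℝ) + 1 - e) := by
        refine add_le_add (by gcongr) (le_of_eq ?_)
        rw [← hXe]
        ring
    _ = _ := by ring

end Pool.Agent.H14.ZF
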